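import Mathlib

set_option autoImplicit false

/-!
# Bogatyi's strong covering conjecture fails for all `2 ≤ m ≤ d`

The conjecture (Bogatyi 1986): in every cover of `S^d` by `m` closed sets there is one member that
contains a rotated copy of every set of `d - m + 3` points. The starting file `Disproof` of this folder
has a counterexample for `d = m = 2`. Here the question is answered for all `d, m` except `m = d + 1`,
`d ≥ 2` (two points).

Counterexamples for `2 ≤ m ≤ d`, `k = d - m + 3 ≥ 3`. Let `z` be the first `m - 1` coordinates.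
The cover: `|z|² ≤ r`; the sets `z_j ≥ ε` for `j ≤ m - 2`; the set `|z|² ≥ r, z_j ≤ ε (j ≤ m - 2)`.
* For `r < 1 / k` the first set contains no orthonormal frame `v_1, …, v_k`, since the sum of the
  `|z(v_i)|²` is at least `1`.
* Let `B` be `k` points on a great circle that span `k` equally spaced lines, `0` being a positive
  combination of three of them. If the linear form `z_j` is `≥ ε` on a copy of `B` this gives a
  contradiction; if it is `≤ ε` on a copy of `B` then it is `O(ε)` on it. So a copy of `B` in the last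
  set would satisfy `|z_{m-1}|² ≥ r - O(ε²)` at all points, but a linear form of norm `≤ 1` has
  absolute value at most `π / (2k)` on one of `k` equally spaced lines, and `(π / (2k))² < 1 / k`.
-/

namespace Pool.Agent.Results.MP_01ee34_gt.EveryCase

/-- Euclidean space `R^(d+1)`. -/
abbrev E (d : ℕ) : Type := EuclideanSpace ℝ (Fin (d + 1))

/-- The unit sphere `S^d` in `R^(d+1)`. -/
def Sph (d : ℕ) : Set (E d) := Metric.sphere 0 1

/-- `F` contains a copy of `A` under some orthogonal map (rotations and reflections). -/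
def HasOrthogonalCopy (d : ℕ) (F A : Set (E d)) : Prop :=
  ∃ ρ ∈ Matrix.orthogonalGroup (Fin (d + 1)) ℝ, ∀ x ∈ A, Matrix.toEuclideanLin ρ x ∈ F

/-- `F` contains a congruent copy of `A`: some rotation `ρ` in `SO(d+1)` maps `A` into `F`. -/
def HasCopy (d : ℕ) (F A : Set (E d)) : Prop :=
  ∃ ρ ∈ Matrix.specialOrthogonalGroup (Fin (d + 1)) ℝ,
    ∀ x ∈ A, Matrix.toEuclideanLin ρ x ∈ F

/-- `F` is a closed cover of `S^d`: its members are closed and their union is the sphere. -/
def IsClosedCover (d m : ℕ) (F : Fin m → Set (E d)) : Prop :=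
  (∀ i, IsClosed (F i)) ∧ (⋃ i, F i) = Sph d

/-- Bogatyi's strong covering property for `m` closed sets on `S^d`: in every closed cover of `S^d`
by `m` sets there is one member that contains a rotated copy of every set of `d - m + 3` points. -/
def StrongProperty (d m : ℕ) : Prop :=
  ∀ F : Fin m → Set (E d), IsClosedCover d m F → ∃ i : Fin m, ∀ A : Finset (E d),
    (A : Set (E d)) ⊆ Sph d → (A.card : ℤ) = (d : ℤ) - (m : ℤ) + 3 → HasCopy d (F i) A

theorem mem_sph {d : ℕ} (x : E d) : x ∈ Sph d ↔ ∑ j, x j ^ 2 = 1 := by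
  rw [Sph, mem_sphere_zero_iff_norm, EuclideanSpace.norm_eq, Real.sqrt_eq_one]
  simp only [Real.norm_eq_abs, sq_abs]

theorem lin_apply {d : ℕ} (ρ : Matrix (Fin (d + 1)) (Fin (d + 1)) ℝ) (x : E d) (j : Fin (d + 1)) :
    (Matrix.toEuclideanLin ρ x) j = ∑ l, ρ j l * x l := by
  simp [Matrix.toEuclideanLin, Matrix.toLpLin_apply, Matrix.mulVec, dotProduct]

theorem row_sq {n : ℕ} {ρ : Matrix (Fin n) (Fin n) ℝ} (h : ρ ∈ Matrix.orthogonalGroup (Fin n) ℝ)
    (j : Fin n) : ∑ l, ρ j l ^ 2 = 1 := by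
  have h1 : ρ * ρ.transpose = 1 := (Matrix.mem_orthogonalGroup_iff (Fin n) ℝ).1 h
  have h2 := congrFun (congrFun h1 j) j
  simp only [Matrix.mul_apply, Matrix.transpose_apply, Matrix.one_apply_eq] at h2
  rw [← h2]
  exact Finset.sum_congr rfl fun l _ => by ring

theorem col_sq {n : ℕ} {ρ : Matrix (Fin n) (Fin n) ℝ} (h : ρ ∈ Matrix.orthogonalGroup (Fin n) ℝ)
    (l : Fin n) : ∑ j, ρ j l ^ 2 = 1 := by
  have h1 : ρ.transpose * ρ = 1 := (Matrix.mem_orthogonalGroup_iff' (Fin n) ℝ).1 h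
  have h2 := congrFun (congrFun h1 l) l
  simp only [Matrix.mul_apply, Matrix.transpose_apply, Matrix.one_apply_eq] at h2
  rw [← h2]
  exact Finset.sum_congr rfl fun l _ => by ring

/-- the sum of the squares of the first `n` coordinates -/
def zz {d : ℕ} (n : ℕ) (x : E d) : ℝ := ∑ j ∈ Finset.univ.filter (fun j : Fin (d + 1) => j.val < n), x j ^ 2

/-- an orthonormal frame of `k` vectors has a member whose first `n` coordinates are not small -/
theorem frame_bound {d n k : ℕ} (hnk : n + k = d + 2) (hk1 : 1 ≤ k) (hk : k ≤ d + 1)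
    {ρ : Matrix (Fin (d + 1)) (Fin (d + 1)) ℝ} (h : ρ ∈ Matrix.orthogonalGroup (Fin (d + 1)) ℝ) :
    1 ≤ ∑ l ∈ Finset.univ.filter (fun l : Fin (d + 1) => l.val < k),
      ∑ j ∈ Finset.univ.filter (fun j : Fin (d + 1) => j.val < n), ρ j l ^ 2 := by
  set J := Finset.univ.filter (fun j : Fin (d + 1) => j.val < n) with hJ
  set L := Finset.univ.filter (fun l : Fin (d + 1) => l.val < k) with hL
  set L' := Finset.univ.filter (fun l : Fin (d + 1) => ¬ l.val < k) with hL'
  have cJ : J.card = n := by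
    rw [hJ, Fin.card_filter_val_lt]; omega
  have cL : L.card = k := by
    rw [hL, Fin.card_filter_val_lt]; omega
  have cL' : L'.card = n - 1 := by
    have h1 := Finset.card_filter_add_card_filter_not (s := (Finset.univ : Finset (Fin (d + 1))))
      (fun l : Fin (d + 1) => l.val < k)
    rw [← hL, ← hL', cL, Finset.card_univ, Fintype.card_fin] at h1
    omega
  have h1 : ∑ j ∈ J, ∑ l, ρ j l ^ 2 = n := by
    rw [Finset.sum_congr rfl fun j _ => row_sq h j]
    simp [cJ]
  have h2 : ∑ j ∈ J, ∑ l, ρ j l ^ 2 = ∑ l ∈ L, ∑ j ∈ J, ρ j l ^ 2 + ∑ l ∈ L', ∑ j ∈ J, ρ j l ^ 2 := by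
    rw [Finset.sum_comm, hL, hL', Finset.sum_filter_add_sum_filter_not]
  have h3 : ∑ l ∈ L', ∑ j ∈ J, ρ j l ^ 2 ≤ ∑ l ∈ L', (1 : ℝ) := by
    refine Finset.sum_le_sum fun l _ => ?_
    rw [← col_sq h l]
    exact Finset.sum_le_sum_of_subset_of_nonneg (Finset.subset_univ _) fun _ _ _ => sq_nonneg _
  have h4 : ∑ l ∈ L', (1 : ℝ) = n - 1 := by
    rw [Finset.sum_const, cL', nsmul_eq_mul, mul_one]
    have : 1 ≤ n := by omega
    push_cast [Nat.cast_sub this]
    ring
  linarith

/-- among `k` equally spaced lines in the plane one is almost orthogonal to a given vector -/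
theorem circle_bound {k : ℕ} (hk : 1 ≤ k) (u v : ℝ) (huv : u ^ 2 + v ^ 2 ≤ 1) :
    ∃ l : ℕ, l < k ∧ (Real.cos (l * Real.pi / k) * u + Real.sin (l * Real.pi / k) * v) ^ 2 ≤
      (Real.pi / (2 * k)) ^ 2 := by
  have hk0 : (0 : ℝ) < k := by exact_mod_cast hk
  have hpi := Real.pi_pos
  obtain ⟨t0, ht0, hf⟩ : ∃ t0 ∈ Set.Icc (0 : ℝ) Real.pi, Real.cos t0 * u + Real.sin t0 * v = 0 := by
    have hc : ContinuousOn (fun t : ℝ => Real.cos t * u + Real.sin t * v) (Set.uIcc 0 Real.pi) := by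
      fun_prop
    have h1 := intermediate_value_uIcc hc
    have h2 : (0 : ℝ) ∈ Set.uIcc ((fun t : ℝ => Real.cos t * u + Real.sin t * v) 0)
        ((fun t : ℝ => Real.cos t * u + Real.sin t * v) Real.pi) := by
      simp only [Real.cos_zero, Real.sin_zero, Real.cos_pi, Real.sin_pi]
      rw [Set.mem_uIcc]
      rcases le_total 0 u with h | h
      · right; constructor <;> linarith
      · left; constructor <;> linarith
    obtain ⟨t0, h3, h4⟩ := h1 h2
    rw [Set.uIcc_of_le hpi.le] at h3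
    exact ⟨t0, h3, h4⟩
  have lip : ∀ t : ℝ, (Real.cos t * u + Real.sin t * v) ^ 2 ≤ (t - t0) ^ 2 := by
    intro t
    have e1 : Real.cos t * u + Real.sin t * v =
        (Real.cos t0 * u + Real.sin t0 * v) * Real.cos (t - t0) +
          (Real.cos t0 * v - Real.sin t0 * u) * Real.sin (t - t0) := by
      have a1 : Real.cos t = Real.cos (t0 + (t - t0)) := by congr 1; ring
      have a2 : Real.sin t = Real.sin (t0 + (t - t0)) := by congr 1; ring
      rw [a1, a2, Real.cos_add, Real.sin_add]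
      ring
    rw [e1, hf, zero_mul, zero_add, mul_pow]
    have e2 : (Real.cos t0 * v - Real.sin t0 * u) ^ 2 ≤ 1 := by
      have h3 := Real.sin_sq_add_cos_sq t0
      have h4 : (Real.cos t0 * v - Real.sin t0 * u) ^ 2 + (Real.cos t0 * u + Real.sin t0 * v) ^ 2 =
          (Real.sin t0 ^ 2 + Real.cos t0 ^ 2) * (u ^ 2 + v ^ 2) := by ring
      rw [hf, h3] at h4
      nlinarith
    have e3 : Real.sin (t - t0) ^ 2 ≤ (t - t0) ^ 2 := by
      have := Real.abs_sin_le_abs (x := t - t0)
      exact sq_le_sq.mpr this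
    calc _ ≤ 1 * (t - t0) ^ 2 := mul_le_mul e2 e3 (sq_nonneg _) (by norm_num)
      _ = _ := one_mul _
  -- the nearest multiple of `π / k`
  set y : ℝ := t0 * k / Real.pi with hy
  have hy0 : 0 ≤ y := by rw [hy]; exact div_nonneg (mul_nonneg ht0.1 hk0.le) hpi.le
  have hyk : y ≤ k := by
    rw [hy, div_le_iff₀ hpi]
    nlinarith [ht0.2]
  have hround := abs_sub_round y
  generalize round y = z at hround
  have hz0 : 0 ≤ z := by
    by_contra hneg
    have h5 : z ≤ -1 := by omega
    have h6 : (z : ℝ) ≤ -1 := by exact_mod_cast h5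
    rw [abs_le] at hround
    linarith [hround.2]
  have hzk : z ≤ k := by
    by_contra hneg
    have h5 : (k : ℤ) + 1 ≤ z := by omega
    have h6 : (k : ℝ) + 1 ≤ z := by exact_mod_cast h5
    rw [abs_le] at hround
    linarith [hround.1]
  obtain ⟨l, rfl⟩ : ∃ l : ℕ, z = l := ⟨z.toNat, by omega⟩
  have hl : l ≤ k := by exact_mod_cast hzk
  have key : (l * Real.pi / k - t0) ^ 2 ≤ (Real.pi / (2 * k)) ^ 2 := by
    have e1 : (l * Real.pi / k - t0) = -(y - l) * (Real.pi / k) := by
      rw [hy]; field_simp; ring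
    have e2 : (y - l) ^ 2 ≤ (1 / 2) ^ 2 := by
      rw [← sq_abs]
      have h5 : |y - (l : ℝ)| ≤ 1 / 2 := by exact_mod_cast hround
      exact pow_le_pow_left₀ (abs_nonneg _) h5 2
    rw [e1, show (Real.pi / (2 * k)) ^ 2 = (1 / 2) ^ 2 * (Real.pi / k) ^ 2 by field_simp,
      show (-(y - l) * (Real.pi / k)) ^ 2 = (y - l) ^ 2 * (Real.pi / k) ^ 2 by ring]
    exact mul_le_mul_of_nonneg_right e2 (sq_nonneg _)
  rcases Nat.lt_or_ge l k with h | h
  · exact ⟨l, h, (lip _).trans key⟩
  · have hlk : l = k := le_antisymm hl h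
    refine ⟨0, hk, ?_⟩
    have h5 := (lip (l * Real.pi / k)).trans key
    rw [hlk, mul_div_assoc, mul_div_cancel₀ _ hk0.ne', Real.cos_pi, Real.sin_pi] at h5
    simp only [Nat.cast_zero, zero_mul, zero_div, Real.cos_zero, Real.sin_zero]
    nlinarith

/-- the vector with first coordinates `a, b` -/
noncomputable def vec {D : ℕ} (a b : ℝ) : E (D + 1) :=
  WithLp.toLp 2 (Fin.cons a (Fin.cons b fun _ => 0))

theorem vec_zero {D : ℕ} (a b : ℝ) : (vec a b : E (D + 1)) 0 = a := rfl

theorem vec_one {D : ℕ} (a b : ℝ) : (vec a b : E (D + 1)) 1 = b := rfl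

theorem vec_rest {D : ℕ} (a b : ℝ) (j : Fin D) : (vec a b : E (D + 1)) j.succ.succ = 0 := rfl

theorem vec_mem {D : ℕ} {a b : ℝ} (h : a ^ 2 + b ^ 2 = 1) : (vec a b : E (D + 1)) ∈ Sph (D + 1) := by
  rw [mem_sph, Fin.sum_univ_succ, Fin.sum_univ_succ]
  have h1 : ((vec a b : E (D + 1)) (Fin.succ 0)) = b := rfl
  simp only [vec_zero, h1, vec_rest]
  simp [h]

theorem lin_vec {D : ℕ} (ρ : Matrix (Fin (D + 1 + 1)) (Fin (D + 1 + 1)) ℝ) (a b : ℝ)
    (j : Fin (D + 1 + 1)) : (Matrix.toEuclideanLin ρ (vec a b : E (D + 1))) j = a * ρ j 0 + b * ρ j 1 := by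
  rw [lin_apply, Fin.sum_univ_succ, Fin.sum_univ_succ]
  have h1 : ((vec a b : E (D + 1)) (Fin.succ 0)) = b := rfl
  have h2 : (Fin.succ 0 : Fin (D + 1 + 1)) = 1 := rfl
  simp only [vec_zero, h1, vec_rest, h2]
  simp
  ring

/-- signs: `-1` for the second point, `1` for the others -/
def sgn (l : ℕ) : ℝ := if l = 1 then -1 else 1

theorem sgn_sq (l : ℕ) : sgn l * sgn l = 1 := by
  unfold sgn; split_ifs <;> norm_num

/-- the `k` points on a great circle -/
noncomputable def pt {D : ℕ} (k l : ℕ) : E (D + 1) :=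
  vec (sgn l * Real.cos (l * Real.pi / k)) (sgn l * Real.sin (l * Real.pi / k))

theorem pt_mem {D : ℕ} (k l : ℕ) : (pt k l : E (D + 1)) ∈ Sph (D + 1) := by
  refine vec_mem ?_
  have h1 := Real.sin_sq_add_cos_sq (l * Real.pi / k)
  have h2 := sgn_sq l
  calc (sgn l * Real.cos (l * Real.pi / k)) ^ 2 + (sgn l * Real.sin (l * Real.pi / k)) ^ 2 =
      (sgn l * sgn l) * (Real.sin (l * Real.pi / k) ^ 2 + Real.cos (l * Real.pi / k) ^ 2) := by ring
    _ = 1 := by rw [h1, h2, one_mul]

theorem pt_inj {D k : ℕ} (hk : 1 ≤ k) {l l' : ℕ} (hl : l < k) (hl' : l' < k)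
    (h : (pt k l : E (D + 1)) = pt k l') : l = l' := by
  have hk0 : (0 : ℝ) < k := by exact_mod_cast hk
  have hpi := Real.pi_pos
  have h0 : (pt k l : E (D + 1)) 0 = (pt k l' : E (D + 1)) 0 := by rw [h]
  have h1 : (pt k l : E (D + 1)) 1 = (pt k l' : E (D + 1)) 1 := by rw [h]
  simp only [pt, vec_zero, vec_one] at h0 h1
  have s1 := sgn_sq l
  have s2 := sgn_sq l'
  have h2 : Real.sin (l * Real.pi / k - l' * Real.pi / k) = 0 := by
    rw [Real.sin_sub]
    have h3 : sgn l * sgn l' * (Real.sin (l * Real.pi / k) * Real.cos (l' * Real.pi / k) -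
        Real.cos (l * Real.pi / k) * Real.sin (l' * Real.pi / k)) = 0 := by
      calc _ = (sgn l * Real.sin (l * Real.pi / k)) * (sgn l' * Real.cos (l' * Real.pi / k)) -
        (sgn l * Real.cos (l * Real.pi / k)) * (sgn l' * Real.sin (l' * Real.pi / k)) := by ring
        _ = 0 := by rw [h0, h1]; ring
    have h4 : sgn l * sgn l' ≠ 0 := by
      intro h5
      have h6 : (sgn l * sgn l) * (sgn l' * sgn l') = 0 := by
        calc _ = (sgn l * sgn l') * (sgn l * sgn l') := by ring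
          _ = 0 := by rw [h5, zero_mul]
      rw [s1, s2] at h6
      norm_num at h6
    exact (mul_eq_zero.mp h3).resolve_left h4
  have b1 : (l : ℝ) * Real.pi / k < Real.pi := by
    rw [div_lt_iff₀ hk0]
    have : (l : ℝ) < k := by exact_mod_cast hl
    nlinarith
  have b2 : (l' : ℝ) * Real.pi / k < Real.pi := by
    rw [div_lt_iff₀ hk0]
    have : (l' : ℝ) < k := by exact_mod_cast hl'
    nlinarith
  have b3 : (0 : ℝ) ≤ l * Real.pi / k := by positivity
  have b4 : (0 : ℝ) ≤ l' * Real.pi / k := by positivity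
  rw [Real.sin_eq_zero_iff_of_lt_of_lt (by linarith) (by linarith)] at h2
  have h5 : (l : ℝ) * Real.pi / k = l' * Real.pi / k := by linarith
  rw [div_left_inj' hk0.ne', mul_left_inj' hpi.ne'] at h5
  exact_mod_cast h5

theorem lin_pt {D : ℕ} (ρ : Matrix (Fin (D + 1 + 1)) (Fin (D + 1 + 1)) ℝ) (k l : ℕ)
    (j : Fin (D + 1 + 1)) : (Matrix.toEuclideanLin ρ (pt k l : E (D + 1))) j =
      sgn l * (Real.cos (l * Real.pi / k) * ρ j 0 + Real.sin (l * Real.pi / k) * ρ j 1) := by
  rw [pt, lin_vec]; ring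

/-- the linear relation between the first three points -/
theorem relation {D k : ℕ} (ρ : Matrix (Fin (D + 1 + 1)) (Fin (D + 1 + 1)) ℝ)
    (j : Fin (D + 1 + 1)) :
    (Matrix.toEuclideanLin ρ (pt k 0 : E (D + 1))) j + (Matrix.toEuclideanLin ρ (pt k 2 : E (D + 1))) j +
      2 * Real.cos (Real.pi / k) * (Matrix.toEuclideanLin ρ (pt k 1 : E (D + 1))) j = 0 := by
  rw [lin_pt, lin_pt, lin_pt]
  have e0 : sgn 0 = 1 := by simp [sgn]
  have e1 : sgn 1 = -1 := by simp [sgn]
  have e2 : sgn 2 = 1 := by simp [sgn]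
  have a2 : ((2 : ℕ) : ℝ) * Real.pi / k = 2 * (Real.pi / k) := by push_cast; ring
  have a1 : ((1 : ℕ) : ℝ) * Real.pi / k = Real.pi / k := by push_cast; ring
  have a0 : ((0 : ℕ) : ℝ) * Real.pi / k = 0 := by push_cast; ring
  rw [e0, e1, e2, a2, a1, a0, Real.cos_two_mul, Real.sin_two_mul, Real.cos_zero, Real.sin_zero]
  ring

theorem cos_half_le {k : ℕ} (hk : 3 ≤ k) : 1 / 2 ≤ Real.cos (Real.pi / k) := by
  have hk0 : (3 : ℝ) ≤ k := by exact_mod_cast hk
  have hpi := Real.pi_pos
  rw [← Real.cos_pi_div_three]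
  refine Real.cos_le_cos_of_nonneg_of_le_pi (by positivity) (by linarith) ?_
  exact div_le_div_of_nonneg_left hpi.le (by norm_num) hk0

theorem sin_pos' {k : ℕ} (hk : 3 ≤ k) : 0 < Real.sin (Real.pi / k) := by
  have hk0 : (3 : ℝ) ≤ k := by exact_mod_cast hk
  have hpi := Real.pi_pos
  refine Real.sin_pos_of_pos_of_lt_pi (by positivity) ?_
  rw [div_lt_iff₀ (by linarith)]
  nlinarith

/-- no rotated copy of the points has `j`-th coordinates at least `ε` -/
theorem not_half {D k : ℕ} (hk : 3 ≤ k) {ε : ℝ} (hε : 0 < ε)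
    (ρ : Matrix (Fin (D + 1 + 1)) (Fin (D + 1 + 1)) ℝ) (j : Fin (D + 1 + 1))
    (h : ∀ l, l < k → ε ≤ (Matrix.toEuclideanLin ρ (pt k l : E (D + 1))) j) : False := by
  have h1 := relation (k := k) ρ j
  have c := cos_half_le hk
  have g0 := h 0 (by omega)
  have g1 := h 1 (by omega)
  have g2 := h 2 (by omega)
  nlinarith [mul_nonneg (by linarith : (0 : ℝ) ≤ 2 * Real.cos (Real.pi / k)) (hε.le.trans g1)]

/-- if all `j`-th coordinates are at most `ε` then they are small -/
theorem small {D k : ℕ} (hk : 3 ≤ k) {ε : ℝ} (hε : 0 < ε)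
    (ρ : Matrix (Fin (D + 1 + 1)) (Fin (D + 1 + 1)) ℝ) (j : Fin (D + 1 + 1))
    (h : ∀ l, l < k → (Matrix.toEuclideanLin ρ (pt k l : E (D + 1))) j ≤ ε) (l : ℕ) :
    (Matrix.toEuclideanLin ρ (pt k l : E (D + 1))) j ^ 2 ≤
      ((3 + 4 / Real.sin (Real.pi / k)) * ε) ^ 2 := by
  have h1 := relation (k := k) ρ j
  have c := cos_half_le hk
  have c1 := Real.cos_le_one (Real.pi / k)
  have s := sin_pos' hk
  have g0 := h 0 (by omega)
  have g1 := h 1 (by omega)
  have g2 := h 2 (by omega)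
  set U := ρ j 0 with hU
  set V := ρ j 1 with hV
  have f0 : (Matrix.toEuclideanLin ρ (pt k 0 : E (D + 1))) j = U := by
    rw [lin_pt]
    have e0 : sgn 0 = 1 := by simp [sgn]
    have a0 : ((0 : ℕ) : ℝ) * Real.pi / k = 0 := by push_cast; ring
    rw [e0, a0, Real.cos_zero, Real.sin_zero]; ring
  have f1 : (Matrix.toEuclideanLin ρ (pt k 1 : E (D + 1))) j =
      -(Real.cos (Real.pi / k) * U + Real.sin (Real.pi / k) * V) := by
    rw [lin_pt]
    have e1 : sgn 1 = -1 := by simp [sgn]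
    have a1 : ((1 : ℕ) : ℝ) * Real.pi / k = Real.pi / k := by push_cast; ring
    rw [e1, a1]; ring
  set c0 := Real.cos (Real.pi / k) with hc0
  set s0 := Real.sin (Real.pi / k) with hs0
  rw [f0, f1] at h1
  rw [f0] at g0
  rw [f1] at g1
  have u1 : -(3 * ε) ≤ U := by nlinarith
  have v1 : -(4 * ε) ≤ s0 * V := by nlinarith
  have v2 : s0 * V ≤ 4 * ε := by
    -- `g2 = 2 c0 (c0 U + s0 V) - U`
    have e1 : (Matrix.toEuclideanLin ρ (pt k 2 : E (D + 1))) j = 2 * c0 * (c0 * U + s0 * V) - U := by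
      linarith
    rw [e1] at g2
    by_contra hneg
    push Not at hneg
    have h5 : 2 * c0 * (s0 * V) ≥ 1 * (s0 * V) := by
      refine mul_le_mul_of_nonneg_right (by linarith) (by linarith)
    have h7 : U - 2 * c0 * c0 * U ≤ 3 * ε := by
      have h8 : (1 - 2 * c0 * c0) ≤ 1 := by nlinarith
      have h9 : -1 ≤ (1 - 2 * c0 * c0) := by nlinarith
      rcases le_total 0 U with hU0 | hU0
      · nlinarith
      · nlinarith
    linarith
  have aU : |U| ≤ 3 * ε := abs_le.mpr ⟨by linarith, by linarith⟩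
  have aV : |V| ≤ 4 * ε / s0 := by
    rw [le_div_iff₀ s]
    have : |s0 * V| ≤ 4 * ε := abs_le.mpr ⟨by linarith, by linarith⟩
    rw [abs_mul, abs_of_pos s] at this
    linarith
  rw [lin_pt]
  have e1 : |sgn l * (Real.cos (l * Real.pi / k) * U + Real.sin (l * Real.pi / k) * V)| ≤
      (3 + 4 / s0) * ε := by
    have s1 : |sgn l| = 1 := by unfold sgn; split_ifs <;> norm_num
    rw [abs_mul, s1, one_mul]
    refine (abs_add_le _ _).trans ?_
    rw [abs_mul, abs_mul]
    have b1 := Real.abs_cos_le_one (l * Real.pi / k)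
    have b2 := Real.abs_sin_le_one (l * Real.pi / k)
    have b3 : |Real.cos (l * Real.pi / k)| * |U| ≤ 1 * (3 * ε) :=
      mul_le_mul b1 aU (abs_nonneg _) (by norm_num)
    have b4 : |Real.sin (l * Real.pi / k)| * |V| ≤ 1 * (4 * ε / s0) :=
      mul_le_mul b2 aV (abs_nonneg _) (by norm_num)
    have b5 : (3 + 4 / s0) * ε = 1 * (3 * ε) + 1 * (4 * ε / s0) := by ring
    linarith
  rw [← sq_abs]
  exact pow_le_pow_left₀ (abs_nonneg _) e1 2

theorem zz_continuous {d : ℕ} (n : ℕ) : Continuous (fun x : E d => zz n x) := by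
  unfold zz
  fun_prop

/-- the closed cover -/
def cov (d m n : ℕ) (r ε : ℝ) (i : Fin m) : Set (E d) :=
  if i.val = 0 then {x | x ∈ Sph d ∧ zz n x ≤ r}
  else if i.val < n then {x | x ∈ Sph d ∧ ∀ j : Fin (d + 1), j.val + 1 = i.val → ε ≤ x j}
  else {x | x ∈ Sph d ∧ r ≤ zz n x ∧ ∀ j : Fin (d + 1), j.val + 1 < n → x j ≤ ε}

theorem cov_closed (d m n : ℕ) (r ε : ℝ) (hn : n + 1 = m) (hn1 : 1 ≤ n) :
    IsClosedCover d m (cov d m n r ε) := by
  have hS : IsClosed (Sph d) := Metric.isClosed_sphere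
  have hz := zz_continuous (d := d) n
  refine ⟨fun i => ?_, ?_⟩
  · unfold cov
    split_ifs
    · exact hS.inter (isClosed_le hz continuous_const)
    · have hc : IsClosed {x : E d | ∀ j : Fin (d + 1), j.val + 1 = i.val → ε ≤ x j} := by
        have : {x : E d | ∀ j : Fin (d + 1), j.val + 1 = i.val → ε ≤ x j} =
            ⋂ j : Fin (d + 1), ⋂ _ : j.val + 1 = i.val, {x : E d | ε ≤ x j} := by
          ext x; simp
        rw [this]
        exact isClosed_iInter fun j => isClosed_iInter fun _ =>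
          isClosed_le continuous_const (by fun_prop)
      exact hS.inter hc
    · have hc : IsClosed {x : E d | ∀ j : Fin (d + 1), j.val + 1 < n → x j ≤ ε} := by
        have : {x : E d | ∀ j : Fin (d + 1), j.val + 1 < n → x j ≤ ε} =
            ⋂ j : Fin (d + 1), ⋂ _ : j.val + 1 < n, {x : E d | x j ≤ ε} := by
          ext x; simp
        rw [this]
        exact isClosed_iInter fun j => isClosed_iInter fun _ =>
          isClosed_le (by fun_prop) continuous_const
      exact hS.inter ((isClosed_le continuous_const hz).inter hc)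
  · ext x
    simp only [Set.mem_iUnion]
    constructor
    · rintro ⟨i, hi⟩
      unfold cov at hi
      split_ifs at hi
      · exact hi.1
      · exact hi.1
      · exact hi.1
    · intro hx
      rcases le_total (zz n x) r with h1 | h1
      · exact ⟨⟨0, by omega⟩, by unfold cov; rw [if_pos rfl]; exact ⟨hx, h1⟩⟩
      · by_cases h2 : ∃ j : Fin (d + 1), j.val + 1 < n ∧ ε ≤ x j
        · obtain ⟨j, hj, hj'⟩ := h2
          refine ⟨⟨j.val + 1, by omega⟩, ?_⟩
          unfold cov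
          rw [if_neg (by simp), if_pos hj]
          refine ⟨hx, fun j' hj'' => ?_⟩
          have : j' = j := Fin.ext (by simpa using hj'')
          rw [this]; exact hj'
        · push Not at h2
          refine ⟨⟨n, by omega⟩, ?_⟩
          unfold cov
          rw [if_neg (by simp; omega), if_neg (by simp)]
          exact ⟨hx, h1, fun j hj => (h2 j hj).le⟩

/-- the orthonormal frame -/
noncomputable def frame (d k : ℕ) (hk : k ≤ d + 1) : Finset (E d) :=
  Finset.univ.image fun l : Fin k => EuclideanSpace.single (Fin.castLE hk l) (1 : ℝ)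

theorem frame_card (d k : ℕ) (hk : k ≤ d + 1) : (frame d k hk).card = k := by
  rw [frame, Finset.card_image_of_injective, Finset.card_univ, Fintype.card_fin]
  intro l l' h
  have h1 := congrFun (congrArg (fun v : E d => v.ofLp) h) (Fin.castLE hk l)
  simp only [PiLp.single_apply, if_true] at h1
  by_contra hne
  rw [if_neg] at h1
  · norm_num at h1
  · intro h2
    exact hne (Fin.castLE_injective hk h2)

theorem frame_sph (d k : ℕ) (hk : k ≤ d + 1) : (frame d k hk : Set (E d)) ⊆ Sph d := by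
  intro x hx
  simp only [frame, Finset.coe_image, Set.mem_image] at hx
  obtain ⟨l, _, rfl⟩ := hx
  simp [Sph]

/-- the `k` points on a great circle -/
noncomputable def circ (D k : ℕ) : Finset (E (D + 1)) := (Finset.range k).image fun l => pt k l

theorem circ_card (D k : ℕ) (hk : 1 ≤ k) : (circ D k).card = k := by
  rw [circ, Finset.card_image_of_injOn, Finset.card_range]
  intro l hl l' hl' h
  exact pt_inj hk (by simpa using hl) (by simpa using hl') h

theorem circ_sph (D k : ℕ) : (circ D k : Set (E (D + 1))) ⊆ Sph (D + 1) := by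
  intro x hx
  simp only [circ, Finset.coe_image, Set.mem_image] at hx
  obtain ⟨l, _, rfl⟩ := hx
  exact pt_mem k l

theorem failure (d m : ℕ) (hm : 2 ≤ m) (hmd : m ≤ d) :
    ∃ F : Fin m → Set (E d), IsClosedCover d m F ∧ ∃ A B : Finset (E d),
      (A : Set (E d)) ⊆ Sph d ∧ (B : Set (E d)) ⊆ Sph d ∧
      A.card = d + 3 - m ∧ B.card = d + 3 - m ∧
      (∀ x ∈ A, ∃ l, x = EuclideanSpace.single l 1) ∧
      (∀ x ∈ B, ∀ j : Fin (d + 1), 2 ≤ j.val → x j = 0) ∧
      ∀ i : Fin m, (i.val = 0 → ¬ HasOrthogonalCopy d (F i) A) ∧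
        (i.val ≠ 0 → ¬ HasOrthogonalCopy d (F i) B) := by
  obtain ⟨D, rfl⟩ : ∃ D, d = D + 1 := ⟨d - 1, by omega⟩
  set k := D + 1 + 3 - m with hkdef
  set n := m - 1 with hndef
  have hk3 : 3 ≤ k := by omega
  have hkd : k ≤ D + 1 + 1 := by omega
  have hnk : n + k = (D + 1) + 2 := by omega
  have hk0 : (0 : ℝ) < k := by exact_mod_cast (by omega : 0 < k)
  have hk3' : (3 : ℝ) ≤ k := by exact_mod_cast hk3
  have hpi := Real.pi_pos
  have hpi4 : Real.pi < 3.15 := Real.pi_lt_d2
  have gap : (Real.pi / (2 * k)) ^ 2 < 1 / k := by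
    rw [div_pow, div_lt_div_iff₀ (by positivity) hk0]
    have h1 : Real.pi ^ 2 < 4 * k := by nlinarith
    have h2 := mul_lt_mul_of_pos_right h1 hk0
    linarith [show (4 * (k : ℝ)) * k = 1 * (2 * k) ^ 2 by ring]
  set r : ℝ := ((Real.pi / (2 * k)) ^ 2 + 1 / k) / 2 with hr
  have hr1 : r < 1 / k := by rw [hr]; linarith
  have hr2 : (Real.pi / (2 * k)) ^ 2 < r := by rw [hr]; linarith
  set K : ℝ := 3 + 4 / Real.sin (Real.pi / k) with hK
  set M : ℝ := (D + 2 : ℕ) * K ^ 2 with hM
  have hM0 : 0 ≤ M := by rw [hM]; positivity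
  obtain ⟨ε, hε, hεM⟩ : ∃ ε : ℝ, 0 < ε ∧ M * ε ^ 2 < r - (Real.pi / (2 * k)) ^ 2 := by
    have hδ : 0 < r - (Real.pi / (2 * k)) ^ 2 := by linarith
    refine ⟨√((r - (Real.pi / (2 * k)) ^ 2) / (M + 1)), Real.sqrt_pos.mpr (by positivity), ?_⟩
    rw [Real.sq_sqrt (by positivity), mul_div_assoc', div_lt_iff₀ (by positivity)]
    nlinarith
  refine ⟨cov (D + 1) m n r ε, cov_closed _ _ _ _ _ (by omega) (by omega),
    frame (D + 1) k hkd, circ D k, frame_sph _ _ _, circ_sph _ _, frame_card _ _ _,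
    circ_card _ _ (by omega), ?_, ?_, fun i => ⟨fun hi => ?_, fun hi => ?_⟩⟩
  · intro x hx
    simp only [frame, Finset.mem_image] at hx
    obtain ⟨l, _, rfl⟩ := hx
    exact ⟨_, rfl⟩
  · intro x hx j hj
    simp only [circ, Finset.mem_image] at hx
    obtain ⟨l, _, rfl⟩ := hx
    obtain ⟨j', rfl⟩ : ∃ j' : Fin D, j = j'.succ.succ := by
      refine ⟨⟨j.val - 2, by omega⟩, Fin.ext ?_⟩
      simp only [Fin.val_succ]
      omega
    exact vec_rest _ _ j'
  · rintro ⟨ρ, hρ, h⟩
    have h1 := frame_bound (d := D + 1) hnk (by omega) hkd hρ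
    have h2 : ∀ l ∈ Finset.univ.filter (fun l : Fin (D + 1 + 1) => l.val < k),
        ∑ j ∈ Finset.univ.filter (fun j : Fin (D + 1 + 1) => j.val < n), ρ j l ^ 2 ≤ r := by
      intro l hl
      have hl' : l.val < k := by simpa using hl
      have h3 : EuclideanSpace.single l (1 : ℝ) ∈ (frame (D + 1) k hkd : Set (E (D + 1))) := by
        simp only [frame, Finset.coe_image, Set.mem_image]
        exact ⟨⟨l.val, hl'⟩, by simp, rfl⟩
      have h4 := h _ h3
      unfold cov at h4
      rw [if_pos hi] at h4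
      have h5 := h4.2
      unfold zz at h5
      refine le_trans (le_of_eq (Finset.sum_congr rfl fun j _ => ?_)) h5
      rw [lin_apply]
      simp [PiLp.single_apply]
    have h3 := Finset.sum_le_sum h2
    rw [Finset.sum_const, Fin.card_filter_val_lt, nsmul_eq_mul, min_eq_right hkd] at h3
    have h4 : (k : ℝ) * r < 1 := by
      have := (lt_div_iff₀ hk0).mp hr1
      linarith
    linarith
  · rintro ⟨ρ, hρ, h⟩
    have hmem : ∀ l, l < k → Matrix.toEuclideanLin ρ (pt k l : E (D + 1)) ∈ cov (D + 1) m n r ε i := by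
      intro l hl
      refine h _ ?_
      simp only [circ, Finset.coe_image, Set.mem_image]
      exact ⟨l, by simpa using hl, rfl⟩
    unfold cov at hmem
    rw [if_neg hi] at hmem
    by_cases hin : i.val < n
    · rw [if_pos hin] at hmem
      obtain ⟨j, hj⟩ : ∃ j : Fin (D + 1 + 1), j.val + 1 = i.val := ⟨⟨i.val - 1, by omega⟩, by simp; omega⟩
      exact not_half hk3 hε ρ j fun l hl => (hmem l hl).2 j hj
    · rw [if_neg hin] at hmem
      -- the special coordinate
      obtain ⟨j0, hj0⟩ : ∃ j : Fin (D + 1 + 1), j.val + 1 = n := ⟨⟨n - 1, by omega⟩, by simp; omega⟩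
      have huv : ρ j0 0 ^ 2 + ρ j0 1 ^ 2 ≤ 1 := by
        have h1 := row_sq hρ j0
        rw [Fin.sum_univ_succ, Fin.sum_univ_succ] at h1
        have h2 : (Fin.succ 0 : Fin (D + 1 + 1)) = 1 := rfl
        rw [h2] at h1
        have h3 : 0 ≤ ∑ l : Fin D, ρ j0 l.succ.succ ^ 2 := Finset.sum_nonneg fun _ _ => sq_nonneg _
        linarith
      obtain ⟨l, hl, hl2⟩ := circle_bound (k := k) (by omega) _ _ huv
      have h1 := (hmem l hl).2.1
      unfold zz at h1
      have h2 : ∑ j ∈ Finset.univ.filter (fun j : Fin (D + 1 + 1) => j.val < n),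
          (Matrix.toEuclideanLin ρ (pt k l : E (D + 1))) j ^ 2 ≤
          ∑ j ∈ Finset.univ.filter (fun j : Fin (D + 1 + 1) => j.val < n),
            ((K * ε) ^ 2 + if j = j0 then (Real.pi / (2 * k)) ^ 2 else 0) := by
        refine Finset.sum_le_sum fun j hj => ?_
        have hjn : j.val < n := by simpa using hj
        by_cases hjj : j = j0
        · rw [if_pos hjj, hjj, lin_pt, mul_pow]
          have e1 : sgn l ^ 2 = 1 := by rw [sq]; exact sgn_sq l
          rw [e1, one_mul]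
          nlinarith [sq_nonneg (K * ε)]
        · rw [if_neg hjj, add_zero]
          refine small hk3 hε ρ j (fun l' hl' => (hmem l' hl').2.2 j ?_) l
          have : j.val ≠ j0.val := fun h => hjj (Fin.ext h)
          omega
      rw [Finset.sum_add_distrib, Finset.sum_const, Finset.sum_ite_eq', nsmul_eq_mul,
        Fin.card_filter_val_lt] at h2
      have h3 : ((min (D + 1 + 1) n : ℕ) : ℝ) * (K * ε) ^ 2 ≤ M * ε ^ 2 := by
        rw [hM, mul_pow, mul_assoc]
        refine mul_le_mul_of_nonneg_right ?_ (by positivity)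
        exact_mod_cast min_le_left _ _
      have h4 : (if j0 ∈ Finset.univ.filter (fun j : Fin (D + 1 + 1) => j.val < n) then
          (Real.pi / (2 * k)) ^ 2 else 0) ≤ (Real.pi / (2 * k)) ^ 2 := by
        split_ifs
        · exact le_rfl
        · positivity
      linarith


theorem surj {X : Type*} [MetricSpace X] {K : Set X} (hK : IsCompact K) {T : X → X}
    (hT : Isometry T) (hm : Set.MapsTo T K K) : K ⊆ T '' K := by
  intro x hx
  have hcl : IsClosed (T '' K) := (hK.image hT.continuous).isClosed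
  rw [← hcl.closure_eq, Metric.mem_closure_iff]
  intro ε hε
  have hit : ∀ n, T^[n] x ∈ K := by
    intro n
    induction n with
    | zero => exact hx
    | succ n ih => rw [Function.iterate_succ_apply']; exact hm ih
  have hiso : ∀ n (a b : X), dist (T^[n] a) (T^[n] b) = dist a b := by
    intro n
    induction n with
    | zero => intro a b; rfl
    | succ n ih => intro a b; rw [Function.iterate_succ_apply, Function.iterate_succ_apply, ih, hT.dist_eq]
  obtain ⟨y, hy, φ, hφ, hlim⟩ := hK.tendsto_subseq hit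
  obtain ⟨N, hN⟩ := Metric.cauchySeq_iff.mp hlim.cauchySeq ε hε
  have h1 := hN (N + 1) (by omega) N (by omega)
  have hlt : φ N < φ (N + 1) := hφ (Nat.lt_succ_self N)
  obtain ⟨k, hk⟩ := Nat.exists_eq_add_of_lt hlt
  refine ⟨T^[k + 1] x, ⟨T^[k] x, hit k, (Function.iterate_succ_apply' _ _ _).symm⟩, ?_⟩
  simp only [Function.comp_apply] at h1
  rw [hk, add_assoc, Function.iterate_add_apply, hiso, dist_comm] at h1
  exact h1

/-- Householder matrix -/
noncomputable def hh {n : ℕ} (w : Fin n → ℝ) : Matrix (Fin n) (Fin n) ℝ :=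
  1 + Matrix.vecMulVec ((-2 / (w ⬝ᵥ w)) • w) w

theorem hh_mulVec {n : ℕ} (w x : Fin n → ℝ) :
    (hh w).mulVec x = x + (-2 * (w ⬝ᵥ x) / (w ⬝ᵥ w)) • w := by
  unfold hh
  rw [Matrix.add_mulVec, Matrix.one_mulVec]
  congr 1
  ext j
  simp only [Matrix.mulVec, Matrix.vecMulVec_apply, dotProduct, Pi.smul_apply, smul_eq_mul]
  rw [Finset.mul_sum, Finset.sum_div, Finset.sum_mul]
  refine Finset.sum_congr rfl fun l _ => by ring

theorem hh_orth {n : ℕ} {w : Fin n → ℝ} (hw : w ⬝ᵥ w ≠ 0) :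
    hh w ∈ Matrix.orthogonalGroup (Fin n) ℝ := by
  rw [Matrix.mem_orthogonalGroup_iff]
  have h1 : (hh w).transpose = hh w := by
    ext i j
    simp only [hh, Matrix.transpose_apply, Matrix.add_apply, Matrix.vecMulVec_apply, Pi.smul_apply,
      smul_eq_mul, Matrix.one_apply]
    rw [mul_comm _ (w i)]
    congr 1
    · simp [eq_comm]
    · ring
  show hh w * (hh w).transpose = 1
  rw [h1]
  unfold hh
  rw [mul_add, add_mul, add_mul, one_mul, mul_one, Matrix.vecMulVec_mul_vecMulVec]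
  ext i j
  simp only [Matrix.add_apply, Matrix.vecMulVec_apply, Pi.smul_apply, smul_eq_mul, dotProduct_smul,
    one_mul]
  field_simp
  ring

theorem hh_det {n : ℕ} {w : Fin n → ℝ} (hw : w ⬝ᵥ w ≠ 0) : (hh w).det = -1 := by
  unfold hh
  rw [Matrix.vecMulVec_eq Unit, Matrix.det_one_add_replicateCol_mul_replicateRow, dotProduct_smul,
    smul_eq_mul]
  field_simp
  ring

theorem exists_rotation {n : ℕ} (a x : Fin (n + 2) → ℝ) (ha : a ⬝ᵥ a = 1) (hx : x ⬝ᵥ x = 1) :
    ∃ ρ ∈ Matrix.specialOrthogonalGroup (Fin (n + 2)) ℝ, ρ.mulVec a = x := by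
  by_cases hax : a = x
  · exact ⟨1, one_mem _, by rw [Matrix.one_mulVec, hax]⟩
  -- reflection taking `a` to `x`
  have hw : (a - x) ⬝ᵥ (a - x) ≠ 0 := by
    intro h
    rw [dotProduct_self_eq_zero] at h
    exact hax (sub_eq_zero.mp h)
  have e1 : (hh (a - x)).mulVec a = x := by
    rw [hh_mulVec]
    have h2 : (a - x) ⬝ᵥ (a - x) = 2 * ((a - x) ⬝ᵥ a) := by
      simp only [sub_dotProduct, dotProduct_sub]
      rw [ha, hx, dotProduct_comm a x]; ring
    have h3 : -2 * ((a - x) ⬝ᵥ a) / ((a - x) ⬝ᵥ (a - x)) = -1 := by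
      rw [div_eq_iff hw, h2]; ring
    rw [h3]; simp
  -- a vector orthogonal to `x`
  obtain ⟨w, hw', hwx⟩ : ∃ w : Fin (n + 2) → ℝ, w ⬝ᵥ w ≠ 0 ∧ w ⬝ᵥ x = 0 := by
    by_cases h0 : x 0 = 0
    · refine ⟨Pi.single 0 1, by simp, by simp [h0]⟩
    · refine ⟨Pi.single 0 (x 1) - Pi.single 1 (x 0), ?_, ?_⟩
      · intro h
        rw [dotProduct_self_eq_zero] at h
        have h4 := congrFun h 1
        simp at h4
        exact h0 h4
      · simp [sub_dotProduct]; ring
  refine ⟨hh w * hh (a - x), ?_, ?_⟩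
  · rw [Matrix.mem_specialOrthogonalGroup_iff]
    refine ⟨mul_mem (hh_orth hw') (hh_orth hw), ?_⟩
    rw [Matrix.det_mul, hh_det hw', hh_det hw]; norm_num
  · rw [← Matrix.mulVec_mulVec, e1, hh_mulVec, hwx]; simp

theorem copy_of_eq {d : ℕ} {F A : Set (E d)} (hF : F = Sph d) (hA : A ⊆ Sph d) : HasCopy d F A := by
  refine ⟨1, one_mem _, fun x hx => ?_⟩
  rw [hF]
  simpa using hA hx

theorem strong_one (d : ℕ) : StrongProperty d 1 := by
  intro F hF
  refine ⟨0, fun A hA _ => copy_of_eq ?_ hA⟩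
  rw [← hF.2]
  ext x
  simp only [Set.mem_iUnion]
  exact ⟨fun h => ⟨0, h⟩, fun ⟨i, hi⟩ => by rwa [Subsingleton.elim i 0] at hi⟩

theorem sph_nonempty (d : ℕ) : (Sph d).Nonempty := ⟨EuclideanSpace.single 0 1, by simp [Sph]⟩

theorem strong_large {d m : ℕ} (hd : 1 ≤ d) (hm : d + 2 ≤ m) : StrongProperty d m := by
  intro F hF
  obtain ⟨x, hx⟩ := sph_nonempty d
  have hx' := hx
  rw [← hF.2, Set.mem_iUnion] at hx'
  obtain ⟨i, hi⟩ := hx'
  refine ⟨i, fun A hA hc => ?_⟩
  have h1 : A.card ≤ 1 := by omega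
  rcases Nat.lt_or_ge 0 A.card with h0 | h0
  · have h2 : A.card = 1 := by omega
    obtain ⟨a, rfl⟩ := Finset.card_eq_one.mp h2
    have ha : a ∈ Sph d := hA (by simp)
    obtain ⟨n, rfl⟩ : ∃ n, d = n + 1 := ⟨d - 1, by omega⟩
    have f1 : a.ofLp ⬝ᵥ a.ofLp = 1 := by
      rw [← (mem_sph a).mp ha]; exact Finset.sum_congr rfl fun _ _ => by ring
    have f2 : x.ofLp ⬝ᵥ x.ofLp = 1 := by
      rw [← (mem_sph x).mp hx]; exact Finset.sum_congr rfl fun _ _ => by ring
    obtain ⟨ρ, hρ, h⟩ := exists_rotation a.ofLp x.ofLp f1 f2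
    refine ⟨ρ, hρ, fun y hy => ?_⟩
    have hya : y = a := by simpa using hy
    have : Matrix.toEuclideanLin ρ a = x := by
      ext j
      rw [lin_apply, ← h]
      rfl
    rw [hya, this]; exact hi
  · have h2 : A = ∅ := Finset.card_eq_zero.mp (by omega)
    refine ⟨1, one_mem _, fun y hy => ?_⟩
    rw [h2] at hy
    simp at hy

/-- rotation of the plane -/
def rot (p : E 1) : Matrix (Fin (1 + 1)) (Fin (1 + 1)) ℝ := !![p 0, -p 1; p 1, p 0]

theorem rot_mem {p : E 1} (hp : p 0 ^ 2 + p 1 ^ 2 = 1) :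
    rot p ∈ Matrix.specialOrthogonalGroup (Fin (1 + 1)) ℝ := by
  rw [Matrix.mem_specialOrthogonalGroup_iff, Matrix.mem_orthogonalGroup_iff]
  constructor
  · show rot p * (rot p).transpose = 1
    ext i j
    fin_cases i <;> fin_cases j <;>
      simp [rot, Matrix.mul_apply, Fin.sum_univ_two, Matrix.transpose_apply] <;> nlinarith
  · have h1 : (rot p).det = rot p 0 0 * rot p 1 1 - rot p 0 1 * rot p 1 0 := Matrix.det_fin_two _
    have e0 : rot p 0 0 = p 0 := rfl
    have e1 : rot p 1 1 = p 0 := rfl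
    have e2 : rot p 0 1 = -p 1 := rfl
    have e3 : rot p 1 0 = p 1 := rfl
    rw [h1, e0, e1, e2, e3]; nlinarith

theorem rot_zero (p x : E 1) : (Matrix.toEuclideanLin (rot p) x) 0 = p 0 * x 0 - p 1 * x 1 := by
  rw [lin_apply]
  simp [rot, Fin.sum_univ_two]; ring

theorem rot_one (p x : E 1) : (Matrix.toEuclideanLin (rot p) x) 1 = p 1 * x 0 + p 0 * x 1 := by
  rw [lin_apply]
  simp [rot, Fin.sum_univ_two]

theorem mem_sph_one (x : E 1) : x ∈ Sph 1 ↔ x 0 ^ 2 + x 1 ^ 2 = 1 := by
  rw [mem_sph, Fin.sum_univ_two]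

/-- a closed subset `P` of the circle which misses a pair is disjoint from its image under some
rotation -/
theorem miss_pair {P : Set (E 1)} (hP : P ⊆ Sph 1) {A : Finset (E 1)} (hA : (A : Set (E 1)) ⊆ Sph 1)
    (hc : A.card = 2) (h : ¬ HasCopy 1 P A) :
    ∃ p : E 1, p 0 ^ 2 + p 1 ^ 2 = 1 ∧ ∀ x ∈ P, Matrix.toEuclideanLin (rot p) x ∉ P := by
  obtain ⟨a, b, hab, rfl⟩ := Finset.card_eq_two.mp hc
  have ha := (mem_sph_one a).mp (hA (by simp))
  have hb := (mem_sph_one b).mp (hA (by simp))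
  refine ⟨!₂[a 0 * b 0 + a 1 * b 1, a 0 * b 1 - a 1 * b 0], ?_, fun x hx hxP => h ?_⟩
  · simp only [Matrix.cons_val_zero, Matrix.cons_val_one]
    calc _ = (a 0 ^ 2 + a 1 ^ 2) * (b 0 ^ 2 + b 1 ^ 2) := by ring
      _ = 1 := by rw [ha, hb, one_mul]
  · have hx' := (mem_sph_one x).mp (hP hx)
    refine ⟨rot !₂[a 0 * x 0 + a 1 * x 1, a 0 * x 1 - a 1 * x 0], rot_mem ?_, fun y hy => ?_⟩
    · simp only [Matrix.cons_val_zero, Matrix.cons_val_one]
      calc _ = (a 0 ^ 2 + a 1 ^ 2) * (x 0 ^ 2 + x 1 ^ 2) := by ring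
        _ = 1 := by rw [ha, hx', one_mul]
    · have hy' : y = a ∨ y = b := by simpa using hy
      rcases hy' with rfl | rfl
      · have : Matrix.toEuclideanLin (rot !₂[y 0 * x 0 + y 1 * x 1, y 0 * x 1 - y 1 * x 0]) y = x := by
          ext j
          fin_cases j
          · show (Matrix.toEuclideanLin _ y) 0 = x 0
            rw [rot_zero]
            simp only [Matrix.cons_val_zero, Matrix.cons_val_one]
            calc _ = (y 0 ^ 2 + y 1 ^ 2) * x 0 := by ring
              _ = _ := by rw [ha, one_mul]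
          · show (Matrix.toEuclideanLin _ y) 1 = x 1
            rw [rot_one]
            simp only [Matrix.cons_val_zero, Matrix.cons_val_one]
            calc _ = (y 0 ^ 2 + y 1 ^ 2) * x 1 := by ring
              _ = _ := by rw [ha, one_mul]
        rw [this]; exact hx
      · have : Matrix.toEuclideanLin (rot !₂[a 0 * x 0 + a 1 * x 1, a 0 * x 1 - a 1 * x 0]) y =
            Matrix.toEuclideanLin (rot !₂[a 0 * y 0 + a 1 * y 1, a 0 * y 1 - a 1 * y 0]) x := by
          ext j
          fin_cases j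
          · show (Matrix.toEuclideanLin _ y) 0 = (Matrix.toEuclideanLin _ x) 0
            rw [rot_zero, rot_zero]
            simp only [Matrix.cons_val_zero, Matrix.cons_val_one]
            ring
          · show (Matrix.toEuclideanLin _ y) 1 = (Matrix.toEuclideanLin _ x) 1
            rw [rot_one, rot_one]
            simp only [Matrix.cons_val_zero, Matrix.cons_val_one]
            ring
        rw [this]; exact hxP

theorem rot_isometry {p : E 1} (hp : p 0 ^ 2 + p 1 ^ 2 = 1) :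
    Isometry (fun x : E 1 => Matrix.toEuclideanLin (rot p) x) := by
  refine Isometry.of_dist_eq fun x y => ?_
  rw [dist_eq_norm, dist_eq_norm, ← map_sub, EuclideanSpace.norm_eq, EuclideanSpace.norm_eq,
    Fin.sum_univ_two, Fin.sum_univ_two, rot_zero, rot_one]
  congr 1
  simp only [Real.norm_eq_abs, sq_abs]
  generalize (x - y) 0 = s
  generalize (x - y) 1 = t
  calc _ = (p 0 ^ 2 + p 1 ^ 2) * (s ^ 2 + t ^ 2) := by ring
    _ = _ := by rw [hp, one_mul]

theorem rot_sph {p : E 1} (hp : p 0 ^ 2 + p 1 ^ 2 = 1) {x : E 1} (hx : x ∈ Sph 1) :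
    Matrix.toEuclideanLin (rot p) x ∈ Sph 1 := by
  rw [mem_sph_one] at hx ⊢
  rw [rot_zero, rot_one]
  calc _ = (p 0 ^ 2 + p 1 ^ 2) * (x 0 ^ 2 + x 1 ^ 2) := by ring
    _ = _ := by rw [hp, hx, one_mul]

/-- two closed sets that cover the circle: one of them contains pairs at all distances -/
theorem strong_circle : StrongProperty 1 2 := by
  intro F hF
  by_contra hcon
  push Not at hcon
  obtain ⟨A0, hA0, hc0, h0⟩ := hcon 0
  obtain ⟨A1, hA1, hc1, h1⟩ := hcon 1
  have hcov : F 0 ∪ F 1 = Sph 1 := by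
    rw [← hF.2]
    ext x
    simp [Set.mem_iUnion, Fin.exists_fin_two]
  have hP : F 0 ⊆ Sph 1 := by rw [← hcov]; exact Set.subset_union_left
  have hQ : F 1 ⊆ Sph 1 := by rw [← hcov]; exact Set.subset_union_right
  obtain ⟨p, hp, hpP⟩ := miss_pair hP hA0 (by omega) h0
  obtain ⟨q, hq, hqQ⟩ := miss_pair hQ hA1 (by omega) h1
  have hor : ∀ x ∈ Sph 1, x ∈ F 0 ∨ x ∈ F 1 := fun x hx => by rw [← hcov] at hx; exact hx
  have step : ∀ x ∈ F 0, Matrix.toEuclideanLin (rot q) (Matrix.toEuclideanLin (rot p) x) ∈ F 0 ∧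
      Matrix.toEuclideanLin (rot q) (Matrix.toEuclideanLin (rot p) x) ∉ F 1 := by
    intro x hx
    have s1 := rot_sph hp (hP hx)
    have s2 : Matrix.toEuclideanLin (rot p) x ∈ F 1 := (hor _ s1).resolve_left (hpP x hx)
    have s3 := hqQ _ s2
    exact ⟨(hor _ (rot_sph hq s1)).resolve_right s3, s3⟩
  have hne0 : (F 0).Nonempty := by
    by_contra hemp
    rw [Set.not_nonempty_iff_eq_empty] at hemp
    rw [hemp, Set.empty_union] at hcov
    exact h1 (copy_of_eq hcov hA1)
  have hne1 : (F 1).Nonempty := by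
    by_contra hemp
    rw [Set.not_nonempty_iff_eq_empty] at hemp
    rw [hemp, Set.union_empty] at hcov
    exact h0 (copy_of_eq hcov hA0)
  have hKc : IsCompact (F 0) := (isCompact_sphere (0 : E 1) 1).of_isClosed_subset (hF.1 0) hP
  have hdis : F 0 ∩ F 1 = ∅ := by
    rw [Set.eq_empty_iff_forall_notMem]
    rintro x ⟨hx0, hx1⟩
    obtain ⟨y, hy, rfl⟩ := surj hKc ((rot_isometry hq).comp (rot_isometry hp))
      (fun x hx => (step x hx).1) hx0
    exact (step y hy).2 hx1
  have hconn : IsPreconnected (Sph 1) := isPreconnected_sphere (by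
    rw [← Module.finrank_eq_rank]
    simp) 0 1
  rw [isPreconnected_closed_iff] at hconn
  obtain ⟨x, hx, hx0, hx1⟩ := hconn (F 0) (F 1) (hF.1 0) (hF.1 1) hcov.ge
    (by rwa [Set.inter_eq_self_of_subset_right hP]) (by rwa [Set.inter_eq_self_of_subset_right hQ])
  have : x ∈ F 0 ∩ F 1 := ⟨hx0, hx1⟩
  rw [hdis] at this
  exact this

theorem strong_fails {d m : ℕ} (hm : 2 ≤ m) (hmd : m ≤ d) : ¬ StrongProperty d m := by
  intro h
  obtain ⟨F, hF, A, B, hA, hB, cA, cB, _, _, hAB⟩ := failure d m hm hmd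
  obtain ⟨i, hi⟩ := h F hF
  have up : ∀ C : Finset (E d), HasCopy d (F i) C → HasOrthogonalCopy d (F i) C := by
    rintro C ⟨ρ, hρ, h1⟩
    exact ⟨ρ, (Matrix.mem_specialOrthogonalGroup_iff.1 hρ).1, h1⟩
  by_cases hi0 : i.val = 0
  · exact (hAB i).1 hi0 (up _ (hi A hA (by rw [cA]; omega)))
  · exact (hAB i).2 hi0 (up _ (hi B hB (by rw [cB]; omega)))

/-- **Bogatyi's strong covering conjecture, case by case.**

(1) Let `2 ≤ m ≤ d`. There are a cover of `S^d` by `m` closed sets `F 0, …, F (m - 1)` and two sets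
`A, B ⊂ S^d` of `d - m + 3` points, `A` consisting of vectors of the standard orthonormal basis and
`B` on a great circle, such that `F 0` contains no copy of `A` and every other `F i` contains no copy
of `B`, not even under reflections. In particular the strong property fails.

(2) For `d ≥ 1`, `m ≥ 1`, with the possible exception of the pairs `(d, d + 1)`, `d ≥ 2`, the strong
property holds if and only if `m = 1` or `m ≥ d + 1`. (For `m = d + 1` the configurations are pairs of
points; the case `d = 1`, `m = 2` is included.)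

(3) The conjecture (for all `d ≥ 1`, `m ≥ 1`) is false. -/
theorem result :
    (∀ d m : ℕ, 2 ≤ m → m ≤ d → ∃ F : Fin m → Set (E d), IsClosedCover d m F ∧
      ∃ A B : Finset (E d), (A : Set (E d)) ⊆ Sph d ∧ (B : Set (E d)) ⊆ Sph d ∧
        A.card = d + 3 - m ∧ B.card = d + 3 - m ∧
        (∀ x ∈ A, ∃ l, x = EuclideanSpace.single l 1) ∧
        (∀ x ∈ B, ∀ j : Fin (d + 1), 2 ≤ j.val → x j = 0) ∧
        ∀ i : Fin m, (i.val = 0 → ¬ HasOrthogonalCopy d (F i) A) ∧
          (i.val ≠ 0 → ¬ HasOrthogonalCopy d (F i) B)) ∧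
    (∀ d m : ℕ, 1 ≤ d → 1 ≤ m → ¬ (2 ≤ d ∧ m = d + 1) →
      (StrongProperty d m ↔ m = 1 ∨ d + 1 ≤ m)) ∧
    ¬ (∀ d m : ℕ, 1 ≤ d → 1 ≤ m → StrongProperty d m) := by
  refine ⟨failure, fun d m hd hm hex => ⟨fun h => ?_, ?_⟩, fun h => ?_⟩
  · by_contra hcon
    push Not at hcon
    exact strong_fails (by omega) (by omega) h
  · rintro (rfl | h)
    · exact strong_one d
    · rcases Nat.lt_or_ge m (d + 2) with h1 | h1
      · have h2 : m = d + 1 := by omega
        have h3 : d = 1 := by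
          by_contra h4
          exact hex ⟨by omega, h2⟩
        subst h3
        subst h2
        exact strong_circle
      · exact strong_large hd h1
  · exact strong_fails le_rfl le_rfl (h 2 2 (by norm_num) (by norm_num))

end Pool.Agent.Results.MP_01ee34_gt.EveryCase
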